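import Pool.Agent.N299.DT.Stm

/-! Project DT: basic facts on closed star algebras generated by commuting tuples. -/

set_option autoImplicit false

noncomputable section

namespace Pool.Agent.N340.DT

open Pool.Agent.N299.DT

theorem AL.closed {E : Type} [CStarAlgebra E] {G : Type} (T : ℕ → G → E) (J : Set ℕ) :
    IsClosed (Al T J : Set E) := StarSubalgebra.isClosed_topologicalClosure _

theorem AL.mem {E : Type} [CStarAlgebra E] {G : Type} (T : ℕ → G → E) {J : Set ℕ} {j : ℕ}
    (hj : j ∈ J) (g : G) : T j g ∈ Al T J :=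
  StarSubalgebra.le_topologicalClosure _ (StarAlgebra.subset_adjoin ℂ _ ⟨j, hj, g, rfl⟩)

theorem AL.le {E : Type} [CStarAlgebra E] {G : Type} (T : ℕ → G → E) {J : Set ℕ}
    {B : StarSubalgebra ℂ E} (hB : IsClosed (B : Set E)) (h : ∀ j ∈ J, ∀ g, T j g ∈ B) :
    Al T J ≤ B := by
  refine StarSubalgebra.topologicalClosure_minimal (StarAlgebra.adjoin_le ?_) hB
  rintro x ⟨j, hj, g, rfl⟩
  exact h j hj g

theorem AL.cen_closed {E : Type} [CStarAlgebra E] (s : Set E) :
    IsClosed (StarSubalgebra.centralizer ℂ s : Set E) := by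
  rw [StarSubalgebra.coe_centralizer]
  exact Set.isClosed_centralizer _

theorem AL.comm {E : Type} [CStarAlgebra E] {G : Type} {T : ℕ → G → E} (hT : CS T)
    {J J' : Set ℕ} (hJ : Disjoint J J') {x y : E} (hx : x ∈ Al T J) (hy : y ∈ Al T J') :
    x * y = y * x := by
  have h1 : ∀ j' ∈ J', ∀ g', Al T J ≤ StarSubalgebra.centralizer ℂ {T j' g'} := by
    intro j' hj' g'
    refine AL.le T (AL.cen_closed _) fun j hj g => ?_
    rw [StarSubalgebra.mem_centralizer_iff]
    intro z hz
    rw [Set.mem_singleton_iff] at hz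
    subst hz
    have hne : j ≠ j' := fun h => Set.disjoint_left.1 hJ hj (h ▸ hj')
    have h2 := hT j j' hne g g'
    exact ⟨h2.1.symm, h2.2.symm⟩
  have h2 : Al T J' ≤ StarSubalgebra.centralizer ℂ {x} := by
    refine AL.le T (AL.cen_closed _) fun j' hj' g' => ?_
    rw [StarSubalgebra.mem_centralizer_iff]
    intro z hz
    rw [Set.mem_singleton_iff] at hz
    subst hz
    have h3 := h1 j' hj' g' hx
    have h4 := h1 j' hj' g' (star_mem hx)
    rw [StarSubalgebra.mem_centralizer_iff] at h3 h4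
    exact ⟨(h3 _ rfl).1.symm, (h4 _ rfl).1.symm⟩
  have h3 := h2 hy
  rw [StarSubalgebra.mem_centralizer_iff] at h3
  exact (h3 x rfl).1

theorem t_AL : S_AL := by
  intro E _ G T
  refine ⟨AL.closed T, ?_, fun J j g hj => AL.mem T hj g, fun J B hB h => AL.le T hB h, ?_, ?_⟩
  · intro J J' hJJ
    exact AL.le T (AL.closed T J') fun j hj g => AL.mem T (hJJ hj) g
  · intro hT
    refine ⟨fun J J' hJ x hx y hy => AL.comm hT hJ hx hy, fun htop J => ⟨fun x hx y hy =>
      AL.comm hT disjoint_compl_right hx hy, ?_⟩⟩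
    rw [eq_top_iff, ← htop]
    refine AL.le T (StarSubalgebra.isClosed_topologicalClosure _) fun j _ g => ?_
    refine StarSubalgebra.le_topologicalClosure _ ?_
    by_cases hj : j ∈ J
    · exact (le_sup_left : Al T J ≤ Al T J ⊔ Al T Jᶜ) (AL.mem T hj g)
    · exact (le_sup_right : Al T Jᶜ ≤ Al T J ⊔ Al T Jᶜ) (AL.mem T hj g)
  · intro F _ π J
    have h1 : ∀ J : Set ℕ, ∀ x ∈ Al T J, π x ∈ Al (fun j g => π (T j g)) J := by
      intro J x hx
      have h2 : Al T J ≤ (Al (fun j g => π (T j g)) J).comap π := by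
        refine AL.le T ?_ fun j hj g => ?_
        · exact (AL.closed (fun j g => π (T j g)) J).preimage (Pool.Agent.N299.continuous_hom π)
        · exact AL.mem (fun j g => π (T j g)) hj g
      exact h2 hx
    refine ⟨h1 J, fun hs htop => ?_⟩
    rw [eq_top_iff]
    intro y _
    obtain ⟨x, rfl⟩ := hs y
    exact h1 _ x (by rw [htop]; trivial)

end Pool.Agent.N340.DT
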