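import Pool.Agent.N299.DT.Stm

/-! Project DT: commuting generating subalgebras of a simple C*-algebra. -/

set_option autoImplicit false

noncomputable section

namespace Pool.Agent.N340.DT

open Pool.Agent.N299.DT

variable {S : Type} [CStarAlgebra S]

/-- the linear span of the products -/
def PB (B B' : StarSubalgebra ℂ S) (hc : ∀ x ∈ B, ∀ y ∈ B', x * y = y * x) :
    StarSubalgebra ℂ S where
  carrier := (Submodule.span ℂ {z : S | ∃ b ∈ B, ∃ b' ∈ B', z = b * b'} : Set S)
  mul_mem' := by
    intro u v hu hv
    simp only [SetLike.mem_coe] at hu hv ⊢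
    induction hu using Submodule.span_induction with
    | mem u hu =>
      obtain ⟨b, hb, b', hb', rfl⟩ := hu
      induction hv using Submodule.span_induction with
      | mem v hv =>
        obtain ⟨c, hc', c', hc'', rfl⟩ := hv
        refine Submodule.subset_span ⟨b * c, mul_mem hb hc', b' * c', mul_mem hb' hc'', ?_⟩
        rw [mul_assoc, mul_assoc, ← mul_assoc b' c c', ← hc c hc' b' hb', mul_assoc c b' c']
      | zero => rw [mul_zero]; exact Submodule.zero_mem _
      | add v w _ _ h1 h2 => rw [mul_add]; exact Submodule.add_mem _ h1 h2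
      | smul a v _ h1 => rw [mul_smul_comm]; exact Submodule.smul_mem _ _ h1
    | zero => rw [zero_mul]; exact Submodule.zero_mem _
    | add u w _ _ h1 h2 => rw [add_mul]; exact Submodule.add_mem _ h1 h2
    | smul a u _ h1 => rw [smul_mul_assoc]; exact Submodule.smul_mem _ _ h1
  add_mem' := fun hu hv => Submodule.add_mem _ hu hv
  algebraMap_mem' := by
    intro a
    refine Submodule.subset_span ⟨algebraMap ℂ S a, B.algebraMap_mem a, 1, one_mem _, ?_⟩
    rw [mul_one]
  star_mem' := by
    intro u hu
    simp only [SetLike.mem_coe] at hu ⊢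
    induction hu using Submodule.span_induction with
    | mem u hu =>
      obtain ⟨b, hb, b', hb', rfl⟩ := hu
      refine Submodule.subset_span ⟨star b, star_mem hb, star b', star_mem hb', ?_⟩
      rw [star_mul, hc (star b) (star_mem hb) (star b') (star_mem hb')]
    | zero => rw [star_zero]; exact Submodule.zero_mem _
    | add u w _ _ h1 h2 => rw [star_add]; exact Submodule.add_mem _ h1 h2
    | smul a u _ h1 => rw [star_smul]; exact Submodule.smul_mem _ _ h1

theorem mem_PB {B B' : StarSubalgebra ℂ S} {hc : ∀ x ∈ B, ∀ y ∈ B', x * y = y * x} {z : S} :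
    z ∈ PB B B' hc ↔ z ∈ Submodule.span ℂ {z : S | ∃ b ∈ B, ∃ b' ∈ B', z = b * b'} := Iff.rfl

/-- a continuous linear map vanishing on the products vanishes -/
theorem dense_ext {B B' : StarSubalgebra ℂ S} (hp : Pair B B') (f : S →ₗ[ℂ] S)
    (hf : Continuous f) (h : ∀ b ∈ B, ∀ b' ∈ B', f (b * b') = 0) (s : S) : f s = 0 := by
  have h1 : B ⊔ B' ≤ PB B B' hp.1 := by
    refine sup_le ?_ ?_
    · intro b hb
      exact mem_PB.2 (Submodule.subset_span ⟨b, hb, 1, one_mem _, (mul_one b).symm⟩)
    · intro b hb
      exact mem_PB.2 (Submodule.subset_span ⟨1, one_mem _, b, hb, (one_mul b).symm⟩)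
  have h2 : ∀ z ∈ PB B B' hp.1, f z = 0 := by
    intro z hz
    rw [mem_PB] at hz
    have h3 : Submodule.span ℂ {z : S | ∃ b ∈ B, ∃ b' ∈ B', z = b * b'} ≤ LinearMap.ker f := by
      rw [Submodule.span_le]
      rintro z ⟨b, hb, b', hb', rfl⟩
      exact h b hb b' hb'
    exact h3 hz
  have h4 : s ∈ (B ⊔ B').topologicalClosure := by rw [hp.2]; trivial
  have h5 : s ∈ closure ((B ⊔ B' : StarSubalgebra ℂ S) : Set S) := h4
  have h6 : IsClosed {z : S | f z = 0} := isClosed_eq hf continuous_const
  exact closure_minimal (fun z hz => h2 z (h1 hz)) h6 h5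

/-- primeness -/
theorem t_PRM : S_PRM := by
  intro S _ hS B B' hp x hx y hy hxy
  by_cases hx0 : x = 0
  · exact Or.inl hx0
  right
  obtain ⟨k, a, b, hab⟩ := hS.2 x hx0
  have key : ∀ s : S, x * s * y = 0 := by
    intro s
    refine dense_ext hp ((LinearMap.mulRight ℂ y).comp (LinearMap.mulLeft ℂ x)) ?_ ?_ s
    · simp only [LinearMap.coe_comp]
      exact (continuous_id.mul continuous_const).comp (continuous_const.mul continuous_id)
    · intro b hb b' hb'
      simp only [LinearMap.coe_comp, Function.comp_apply, LinearMap.mulRight_apply,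
        LinearMap.mulLeft_apply]
      calc x * (b * b') * y = x * b * (b' * y) := by simp only [mul_assoc]
        _ = (b' * y) * (x * b) := hp.1 _ (mul_mem hx hb) _ (mul_mem hb' hy)
        _ = b' * (y * x) * b := by simp only [mul_assoc]
        _ = 0 := by rw [← hp.1 x hx y hy, hxy, mul_zero, zero_mul]
  calc y = (∑ i, a i * x * b i) * y := by rw [hab, one_mul]
    _ = ∑ i, a i * (x * b i * y) := by
        rw [Finset.sum_mul]
        exact Finset.sum_congr rfl fun i _ => by simp only [mul_assoc]
    _ = 0 := by simp only [key, mul_zero, Finset.sum_const_zero]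

/-- linear independence -/
theorem t_LI : S_CEN → S_LI := by
  intro hcen S _ hS B B' hp r
  induction r with
  | zero => intro x y _ _ _ _ i; exact i.elim0
  | succ r ih =>
    intro x y hx hy hli hsum
    have h0 : y 0 = 0 := by
      by_contra hy0
      -- commutation
      have h1 : ∀ b ∈ B', ∀ i, y i * b * y 0 = y 0 * b * y i := by
        intro b hb
        have h2 : ∑ i : Fin r, x i.succ * (y i.succ * b * y 0 - y 0 * b * y i.succ) = 0 := by
          have h3 : ∑ i : Fin (r + 1), x i * (y i * b * y 0 - y 0 * b * y i) = 0 := by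
            have h4 : ∀ i, x i * (y i * b * y 0 - y 0 * b * y i) =
                x i * y i * (b * y 0) - y 0 * b * (x i * y i) := by
              intro i
              have h5 := hp.1 (x i) (hx i) (y 0 * b) (mul_mem (hy 0) hb)
              rw [mul_sub]
              congr 1
              · simp only [mul_assoc]
              · rw [← mul_assoc (x i) (y 0 * b) (y i), h5, mul_assoc]
            rw [Finset.sum_congr rfl fun i _ => h4 i, Finset.sum_sub_distrib, ← Finset.sum_mul,
              ← Finset.mul_sum, hsum, zero_mul, mul_zero, sub_zero]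
          rw [Fin.sum_univ_succ] at h3
          simpa using h3
        have h3 := ih (fun i => x i.succ) (fun i => y i.succ * b * y 0 - y 0 * b * y i.succ)
          (fun i => hx _) (fun i => sub_mem (mul_mem (mul_mem (hy _) hb) (hy _))
            (mul_mem (mul_mem (hy _) hb) (hy _)))
          (hli.comp Fin.succ (Fin.succ_injective r)) h2
        intro i
        refine Fin.cases rfl (fun i => ?_) i
        exact sub_eq_zero.1 (h3 i)
      have h2 : ∀ s : S, ∀ i, y i * s * y 0 = y 0 * s * y i := by
        intro s i
        rw [← sub_eq_zero]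
        refine dense_ext hp ((LinearMap.mulRight ℂ (y 0)).comp (LinearMap.mulLeft ℂ (y i)) -
          (LinearMap.mulRight ℂ (y i)).comp (LinearMap.mulLeft ℂ (y 0))) ?_ ?_ s
        · have e : ((((LinearMap.mulRight ℂ (y 0)).comp (LinearMap.mulLeft ℂ (y i)) -
            (LinearMap.mulRight ℂ (y i)).comp (LinearMap.mulLeft ℂ (y 0))) : S →ₗ[ℂ] S) : S → S) =
            fun s => y i * s * y 0 - y 0 * s * y i := by
            ext s; simp
          rw [e]
          fun_prop
        · intro b hb b' hb'
          simp only [LinearMap.sub_apply, LinearMap.coe_comp, Function.comp_apply,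
            LinearMap.mulRight_apply, LinearMap.mulLeft_apply]
          rw [← mul_assoc (y i) b b', ← mul_assoc (y 0) b b', ← hp.1 b hb (y i) (hy i),
            ← hp.1 b hb (y 0) (hy 0), mul_assoc b (y i) b', mul_assoc b (y 0) b',
            mul_assoc b (y i * b') (y 0), mul_assoc b (y 0 * b') (y i), h1 b' hb' i, sub_self]
      obtain ⟨k, c, d, hcd⟩ := hS.2 (y 0) hy0
      obtain ⟨l, hl⟩ : ∃ l : Fin (r + 1) → S, ∀ i, l i = ∑ j, c j * y i * d j :=
        ⟨_, fun _ => rfl⟩
      have h3 : ∀ (s : S) (i : Fin (r + 1)), l i * s * y 0 = s * y i := by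
        intro s i
        calc l i * s * y 0 = ∑ j, c j * (y i * (d j * s) * y 0) := by
              rw [hl, Finset.sum_mul, Finset.sum_mul]
              exact Finset.sum_congr rfl fun j _ => by simp only [mul_assoc]
          _ = ∑ j, c j * y 0 * d j * (s * y i) := by
              refine Finset.sum_congr rfl fun j _ => ?_
              rw [h2]
              simp only [mul_assoc]
          _ = s * y i := by rw [← Finset.sum_mul, hcd, one_mul]
      have h4 : ∀ (i : Fin (r + 1)) (s : S), l i * s = s * l i := by
        intro i s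
        have h5 : ∀ t : S, (l i * s - s * l i) * t * y 0 = 0 := by
          intro t
          calc (l i * s - s * l i) * t * y 0 = l i * (s * t) * y 0 - s * (l i * t * y 0) := by
                rw [sub_mul, sub_mul]; simp only [mul_assoc]
            _ = 0 := by rw [h3, h3, mul_assoc, sub_self]
        rw [← sub_eq_zero]
        calc l i * s - s * l i = (l i * s - s * l i) * ∑ j, c j * y 0 * d j := by
              rw [hcd, mul_one]
          _ = ∑ j, (l i * s - s * l i) * c j * y 0 * d j := by
              rw [Finset.mul_sum]
              exact Finset.sum_congr rfl fun j _ => by simp only [mul_assoc]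
          _ = 0 := by simp only [h5, zero_mul, Finset.sum_const_zero]
      have h5 : ∀ i, ∃ m : ℂ, l i = m • 1 := fun i => hcen S hS (l i) (h4 i)
      choose m hm using h5
      have h6 : l 0 = 1 := by rw [hl, hcd]
      have h7 : (∑ i, m i • x i) * y 0 = 0 := by
        rw [← hsum, Finset.sum_mul]
        refine Finset.sum_congr rfl fun i _ => ?_
        have h8 := h3 1 i
        rw [mul_one, one_mul, hm i, smul_one_mul] at h8
        rw [← h8, mul_smul_comm, smul_mul_assoc]
      rcases t_PRM S hS B B' hp _ (sum_mem fun i _ => SMulMemClass.smul_mem (m i) (hx i)) _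
        (hy 0) h7 with h8 | h8
      · have h9 := Fintype.linearIndependent_iff.1 hli m h8 0
        have h10 := hm 0
        rw [h9, h6, zero_smul] at h10
        exact hS.1 h10
      · exact hy0 h8
    have h1 := ih (fun i => x i.succ) (fun i => y i.succ) (fun i => hx _) (fun i => hy _)
      (hli.comp Fin.succ (Fin.succ_injective r)) (by
        rw [Fin.sum_univ_succ, h0, mul_zero, zero_add] at hsum
        exact hsum)
    intro i
    exact Fin.cases h0 h1 i

end Pool.Agent.N340.DT
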